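import Mathlib

/-!
# Project PX (MP_3938c6_al, PIQuotient). Module statements.

Row `XX` proves `theorem XX (h1 : AA_stmt ..) … : XX_stmt ..` in the file `Pool/Agent/<seat>/PX/XX.lean`, with
`import Pool.Agent.helper66.PX.Spec`, namespace `Pool.Agent.PX`. Hypotheses: exactly the list `uses:` (any statement of this
file that is listed BEFORE the row may be added if you need it; tell helper66). Auxiliary lemmas prefixed `XX_`. No `sorry`,
no double quotes, no `convert`/`congr!`. If a statement looks wrong or is false: message helper66 at once.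

GOAL: a semiprime algebra over a field of characteristic 0 which satisfies a polynomial identity has a nonzero centre,
applied to the algebra of sequences modulo bounded sequences of a counterexample to MP_3938c6.

Multilinear expressions: variables are natural numbers, `s : List ℕ` is a list of distinct variables, `c : List ℕ → K` gives the
coefficients; `EV c s x = ∑_w c w • x_{w 0} x_{w 1} ⋯`, the sum over all reorderings `w` of `s` (`List.mem_permutations`:
`w ∈ s.permutations ↔ w.Perm s`).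
-/

set_option autoImplicit false

open Polynomial

noncomputable section

namespace Pool.Agent.PX

universe u v w

/-- the multilinear expression with coefficients `c` in the variables `s`, evaluated at `x`. -/
def EV {K : Type u} {R : Type v} [CommRing K] [Ring R] [Algebra K R] (c : List ℕ → K) (s : List ℕ) (x : ℕ → R) : R :=
  ∑ w ∈ s.permutations.toFinset, c w • (w.map x).prod

/-- `I` satisfies modulo `W` a nonzero multilinear identity of degree `n`. -/
def MI (K : Type u) (R : Type v) [Field K] [Ring R] [Algebra K R] (I W : Submodule K R) (n : ℕ) : Prop :=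
  ∃ (s : List ℕ) (c : List ℕ → K), s.Nodup ∧ s.length = n ∧ (∃ w : List ℕ, w.Perm s ∧ c w ≠ 0) ∧
    ∀ x : ℕ → R, (∀ i, x i ∈ I) → EV c s x ∈ W

/-- `I` is a two-sided ideal. -/
def Two (K : Type u) (R : Type v) [Field K] [Ring R] [Algebra K R] (I : Submodule K R) : Prop :=
  ∀ a : R, ∀ x ∈ I, a * x ∈ I ∧ x * a ∈ I

/-- `I` is semiprime modulo `W`. -/
def Sem (K : Type u) (R : Type v) [Field K] [Ring R] [Algebra K R] (I W : Submodule K R) : Prop :=
  ∀ x ∈ I, (∀ u ∈ I, x * u * x ∈ W) → x ∈ W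

theorem EV_map {K : Type u} {R : Type v} {R' : Type w} [CommRing K] [Ring R] [Algebra K R] [Ring R'] [Algebra K R']
    (φ : R →ₐ[K] R') (c : List ℕ → K) (s : List ℕ) (x : ℕ → R) : φ (EV c s x) = EV c s (fun i => φ (x i)) := by
  unfold EV
  rw [map_sum]
  refine Finset.sum_congr rfl fun w _ => ?_
  rw [map_smul, map_list_prod, List.map_map]
  rfl

/-! ## Part 1: general tools -/

/-- **EXT** (medium). An expression vanishing on `S` vanishes on sums of multiples of elements of `S` by commuting elements.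
uses: nothing.
PROOF. `EV c s x` depends only on the `x i`, `i ∈ s`, and for `j ∈ s` it is additive and `k`-linear in `x j`
(`Function.update x j _`), because every reordering `w` of `s` contains `j` exactly once (`w = w₁ ++ j :: w₂`, `j ∉ w₁, w₂`, by
`List.Nodup`, `List.append_of_mem`), and `EV c s (update x j (γ * a)) = γ * EV c s (update x j a)` if `γ` commutes with all `x i`, `i ≠ j`.
By induction on a finite set `F` of variables (`F ⊆ s.toFinset`, `Finset.induction_on`) prove: `EV c s x = 0` if `x i` lies in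
the span for `i ∈ F` and in `S` for `i ∉ F` (replace `x i` by `0 ∈ S` for `i ∉ s`). Step: `Submodule.span_induction` in `x j`. The
elements `γ ∈ Γ` commute with the whole span. -/
def EXT_stmt : Prop := ∀ (k : Type u) (R : Type v) [CommRing k] [Ring R] [Algebra k R] (S Γ : Set R),
  (0 : R) ∈ S → (∀ γ ∈ Γ, ∀ a ∈ S, γ * a = a * γ) → (∀ γ ∈ Γ, ∀ δ ∈ Γ, γ * δ = δ * γ) →
  ∀ (s : List ℕ) (c : List ℕ → k), s.Nodup → (∀ x : ℕ → R, (∀ i, x i ∈ S) → EV c s x = 0) →
  ∀ x : ℕ → R, (∀ i, x i ∈ Submodule.span k {y : R | ∃ γ ∈ Γ, ∃ a ∈ S, y = γ * a}) → EV c s x = 0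

/-- **LN** (LONG). A nil, semiprime ring with a multilinear identity is zero (everything modulo `W`). uses: nothing.
PROOF. Induction on `n`, for all `U, W` (`R` fixed). `n = 0`: `s = []`, `EV = c [] • 1 ∈ W`, so `1 ∈ W` and `u = u * 1 ∈ W` (`1 ∈ W ≤ U`).
Step `n + 1`. Suppose `U` is not `≤ W`: there is `b₀ ∈ U`, `b₀ ∉ W`; take the least `k` with `b₀^(k+1) ∈ W`, `k ≥ 1`, and
`a = b₀^k`: `a ∈ U`, `a ∉ W`, `a * a ∈ W` (`2k ≥ k+1`). Put `U' = a U` (the image of `U` under `u ↦ a * u`, a submodule, closed under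
multiplication, `≤ U`) and `W' = {x ∈ U' : ∀ v ∈ U, x * a * v ∈ W}`.
(Sem) Let `x ∈ U'`, `x u' x ∈ W'` for all `u' ∈ U'`. For `v ∈ U` put `y = x a v ∈ U`: for `u ∈ U`, `y u y = x (a (v u)) x * a * v ∈ W`
(`a (v u) ∈ U'`, definition of `W'`), so `y ∈ W`. Hence `x ∈ W'`.
(nil) `x^(k+1) ∈ W` implies `x^(k+1) a v ∈ W`, so `x^(k+1) ∈ W'`.
(identity of degree `n`) Let `c w₀ ≠ 0`, `w₀ = w₁ ++ [p]` a reordering of `s`. Put `s' = s.erase p`, `c' w = c (w ++ [p])`:
`s'.Nodup`, `s'.length = n`, `w₁.Perm s'`. For `x i = a r_i ∈ U'` (`r_i ∈ U`) let `y = EV c' s' x ∈ U` (if `n ≥ 1`; for `n = 0` `y = c' [] • 1`, see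
below). For `b ∈ U` evaluate the identity at `x' = update x p (b a)`: a reordering `w` of `s` either ends with `p` and gives
`(w₁.map x).prod * (b a)`, or it contains `p` followed by some `i ≠ p` and its product contains `(b a) (a r_i) = b (a a) r_i ∈ W`, so
it lies in `W` (`W` absorbs `U`; the remaining factors are in `U`). The reorderings ending with `p` are the `w₁ ++ [p]` with `w₁` a
reordering of `s'`. So `y * b * a ∈ W` for all `b ∈ U`. We want `y ∈ W'`, i.e. `y a v ∈ W` for `v ∈ U`: let `t = y a v`; for `u ∈ U`,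
`t u t = y (a v u) y a v`; if `n ≥ 1` then `y = a s₀` with `s₀ ∈ U` and `t u t = (y * (a v u) * a) * (s₀ a v) ∈ W`; so `t ∈ W` by Sem.
(If `n = 0`: `y = κ • 1`, `κ ≠ 0`, so `b a ∈ W` for all `b ∈ U`, hence `a u a ∈ W` for all `u ∈ U` and `a ∈ W` by Sem: contradiction.)
`y ∈ U'` for `n ≥ 1` since every word starts with some `a r_i`.
By induction `U' ≤ W'`: `(a u) a v ∈ W` for all `u, v ∈ U`. For `u ∈ U` let `t = a u a`: `t v t = ((a u) a (v a u)) a`…: `a u a v a u a ∈ W` (it is
`(a u) * a * (v a u a)`), so `t ∈ W` by Sem, for all `u`, so `a ∈ W` by Sem: contradiction. -/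
def LN_stmt : Prop := ∀ (K : Type u) (R : Type v) [Field K] [Ring R] [Algebra K R] (n : ℕ) (U W : Submodule K R),
  W ≤ U → (∀ x ∈ U, ∀ y ∈ U, x * y ∈ U) → (∀ x ∈ U, ∀ y ∈ W, x * y ∈ W ∧ y * x ∈ W) → Sem K R U W →
  (∀ x ∈ U, ∃ k : ℕ, x ^ (k + 1) ∈ W) → MI K R U W n → U ≤ W

/-- **NNI** (medium). Nonzero ideals contain non-nilpotent elements. uses: LN.
PROOF. `U = span {a z b}` is a two-sided ideal, `U ≤ I`, `z ∈ U`. If all `r ∈ U` are nilpotent, apply LN to `U`, `W = ⊥`: the identity
holds on `U ≤ I`. `Sem K R U ⊥`: let `x ∈ U`, `x u x = 0` for all `u ∈ U`. For `y ∈ I` put `t = x y x ∈ I`; for `q ∈ I`, `t q t = x (y x q x y) x = 0`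
since `y x q x y ∈ U`; so `t = 0` by `Sem K R I ⊥`, for all `y`, so `x = 0`. Conclusion `U ≤ ⊥`, contradiction with `z ≠ 0`. -/
def NNI_stmt : Prop := ∀ (K : Type u) (R : Type v) [Field K] [Ring R] [Algebra K R] (n : ℕ) (I : Submodule K R),
  Two K R I → Sem K R I ⊥ → MI K R I ⊥ n → ∀ z ∈ I, z ≠ 0 →
  ∃ r ∈ Submodule.span K {y : R | ∃ a b : R, y = a * z * b}, ∀ k : ℕ, r ^ k ≠ 0

/-- **SM** (medium). A maximal left ideal of `R[X]`. uses: nothing.
PROOF. The left ideal `L = Ideal.span {1 - C r * X}` of `R[X]` (ideals of a ring are LEFT ideals in Mathlib) is proper: if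
`p * (1 - C r * X) = 1` then comparing coefficients `p.coeff 0 = 1`, `p.coeff (i+1) = p.coeff i * r`, so `p.coeff i = r ^ i ≠ 0` for all
`i`, impossible for `i > natDegree p`. `Ideal.exists_le_maximal`. (`Ideal.mem_span_singleton'`: `∃ a, a * y = x`.) -/
def SM_stmt : Prop := ∀ (R : Type v) [Ring R] (r : R), (∀ k : ℕ, r ^ k ≠ 0) →
  ∃ m : Ideal R[X], m.IsMaximal ∧ (1 - C r * X : R[X]) ∈ m

/-! ## Part 2: density and matrices -/

/-- every `L`-linear endomorphism of `M` agrees on every finite set with a combination `∑ ℓ • s • _`, `s ∈ J`. -/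
def DenseJ (S : Type v) (M : Type w) (L : Type w) [Ring S] [AddCommGroup M] [Module S M] [Field L] [Module L M]
    (J : Ideal S) : Prop :=
  ∀ (φ : M →ₗ[L] M) (t : Finset M), ∃ l : List (L × S), (∀ p ∈ l, p.2 ∈ J) ∧
    ∀ m ∈ t, φ m = (l.map fun p => p.1 • p.2 • m).sum

/-- **DN** (LONG). Density over a maximal commutative subfield of the commutant. uses: nothing.
PROOF. `D = Module.End S M` is a division ring (`Module.End.instDivisionRing`, Schur). Zorn (`zorn_subset`): a maximal set `Z ⊆ D` of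
pairwise commuting elements; then `Z = Set.centralizer Z` (an element commuting with all of `Z` can be added). So
`Subring.centralizer Z` is commutative, closed under inverses (the inverse of an element commuting with `Z` commutes with `Z`): a
field `L : Type w`; it acts on `M`, commuting with `S`; it contains the scalars `k • 1` (`k ∈ K`; they are `S`-linear because
`k • m = (algebraMap K S k) • m` is central, and they commute with every element of `D`): this gives `Algebra K L`, `IsScalarTower K L M`.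
Density: let `T` be the subring of `AddMonoid.End M` (or `Module.End ℤ M`, `Module.End K M`) generated by the actions of `S` and `L`;
since these commute, its elements are the finite sums `∑ ℓ_j s_j`. `M` is a simple `T`-module (a `T`-submodule is an `S`-submodule). Every
`f ∈ Module.End T M` is `S`-linear, so in `D`, and commutes with `L`, so it lies in `L`. `jacobson_density` for `T`: an `L`-linear `φ` is
linear over `Module.End T M`, so for every finite `t` there is `q ∈ T` with `φ m = q • m` on `t`. This is the claim with `J = ⊤`.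
For general `J`: for `m ≠ 0`, `J m = M`: `{m : J m = 0}` is an `S`-submodule (`J` is right closed: `j (s m) = (j s) m`), not everything, so
`0`; and `{j m : j ∈ J}` is an `S`-submodule `≠ 0`. Now let `V` be the `L`-span of `t`, `v_1, …, v_k` an `L`-basis of `V`. By the
first part there are `q_i ∈ T` with `q_i v_i = v_i`, `q_i v_h = 0` for `h ≠ i` (extend the `v_i` to a basis of `M` to get an `L`-linear `φ_i`);
choose `j_i ∈ J` with `j_i v_i = φ v_i`. Then `∑ j_i q_i` (`j_i (ℓ s) = ℓ (j_i s)`, `j_i s ∈ J`) agrees with `φ` on all `v_h`, hence on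
`V` (both sides are `L`-linear). -/
def DN_stmt : Prop := ∀ (K : Type u) (S : Type v) (M : Type w) [Field K] [Ring S] [Algebra K S] [AddCommGroup M]
  [Module K M] [Module S M] [IsScalarTower K S M], IsSimpleModule S M →
  ∀ J : Ideal S, (∀ a ∈ J, ∀ b : S, a * b ∈ J) → (∃ j ∈ J, ∃ m : M, j • m ≠ 0) →
  ∃ (L : Type w) (_ : Field L) (_ : Algebra K L) (_ : Module L M) (_ : IsScalarTower K L M) (_ : SMulCommClass S L M),
    DenseJ S M L J

/-- **ST** (LONG). Staircase: a multilinear identity of degree `n` on `J` bounds the dimension by `n / 2`. uses: EXT.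
PROOF. Suppose `v_0, …, v_m ∈ M` are `L`-linearly independent with `m = n / 2` (natural division); we derive a contradiction (then
`M` is finite dimensional of dimension `≤ n / 2`). Let `E = Module.End K M` (a `K`-algebra; `S` and `L` act by `K`-algebra
homomorphisms `ρ, λ` into `E`, with commuting images). By EXT in `E` (`S₀ = ρ(J)`, `Γ = λ(L)`; the hypothesis on `S₀` is the
identity on `J` and `EV_map`) the identity holds for all elements of the form `y = ∑ λ(ℓ) ρ(p)`, `p ∈ J`. Let `w₀.Perm s`, `c w₀ ≠ 0`, `w₀ = [i_0, …, i_{n-1}]`.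
By density choose for each `k < n` an element `y_{i_k} = ∑ λ(ℓ) ρ(p)` of `E` acting on `v_0, …, v_m` as the matrix unit
`E_k : v_{(k+1)/2} ↦ v_{k/2}`, other `v_h ↦ 0` (there is an `L`-linear `φ` of `M` with these values), `y_i = 0` for the other variables.
`E_0 E_1 E_2 ⋯ = E_{00} E_{01} E_{11} E_{12} ⋯` sends `v_{n/2}` (`(n-1+1)/2 = n/2`) to `v_0`, and the product in any other order sends `v_{n/2}` to `0`: if
`E_{k} E_{k'} ≠ 0` on the `v_h`, `k ≠ k'`, then `(k+1)/2 = k'/2`, so `k' > k`; a reordering of `0, …, n-1` in which every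
letter is smaller than the next one is the identity. So `0 = EV c s y (v_{n/2}) = c w₀ • v_0 ≠ 0`. -/
def ST_stmt : Prop := ∀ (K : Type u) (S : Type v) (M L : Type w) [Field K] [Ring S] [Algebra K S] [AddCommGroup M]
  [Module K M] [Module S M] [IsScalarTower K S M] [Field L] [Algebra K L] [Module L M] [IsScalarTower K L M]
  [SMulCommClass S L M] (J : Ideal S) (n : ℕ), DenseJ S M L J →
  (∃ (s : List ℕ) (c : List ℕ → K), s.Nodup ∧ s.length = n ∧ (∃ w : List ℕ, w.Perm s ∧ c w ≠ 0) ∧
    ∀ x : ℕ → S, (∀ i, x i ∈ J) → EV c s x = 0) →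
  Module.Finite L M ∧ 2 * Module.finrank L M ≤ n

/-- **SPL** (medium). A simple module gives a representation by matrices. uses: DN, ST.
PROOF. DN and ST: `L`, `M` of finite dimension `n'`, `1 ≤ n'` (`M ≠ 0`), `2 n' ≤ n`. The action `S → Module.End L M` is a `K`-algebra
homomorphism (`Algebra K (Module.End L M)` via `K → L`; or build the homomorphism by hand), compose with
`LinearMap.toMatrixAlgEquiv` of a basis (`Module.finBasis L M`), restricted to scalars `K`. `ρ s = 0` iff `s` acts as `0`. By DenseJ with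
`t` = the basis, every `φ` is `∑ ℓ_j ρ(p_j)`, `p_j ∈ J` (two `L`-linear maps equal on a basis). -/
def SPL_stmt : Prop := ∀ (K : Type u) (S : Type v) (M : Type w) [Field K] [Ring S] [Algebra K S] [AddCommGroup M]
  [Module K M] [Module S M] [IsScalarTower K S M], IsSimpleModule S M →
  ∀ (J : Ideal S) (n : ℕ), (∀ a ∈ J, ∀ b : S, a * b ∈ J) → (∃ j ∈ J, ∃ m : M, j • m ≠ 0) →
  (∃ (s : List ℕ) (c : List ℕ → K), s.Nodup ∧ s.length = n ∧ (∃ w : List ℕ, w.Perm s ∧ c w ≠ 0) ∧
    ∀ x : ℕ → S, (∀ i, x i ∈ J) → EV c s x = 0) →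
  ∃ (L : Type w) (_ : Field L) (_ : Algebra K L) (n' : ℕ) (ρ : S →ₐ[K] Matrix (Fin n') (Fin n') L),
    1 ≤ n' ∧ 2 * n' ≤ n ∧ (∀ a : S, ρ a = 0 ↔ ∀ m : M, a • m = 0) ∧
    Submodule.span L (ρ '' (J : Set S)) = ⊤

/-- **SEP** (LONG). Semiprime PI algebras are subdirect in matrix algebras over fields. uses: EXT, NNI, SM, SPL.
PROOF. NNI: `r ∈ span {a z b}` with all powers nonzero; SM: `m` maximal left ideal of `S = R[X]`, `1 - C r * X ∈ m`; `M = R[X] ⧸ m` is a simple
`R[X]`-module, with its natural `K`-structure. For the class `e` of `1`: `(C r * X) • e = e ≠ 0`, so `C z` does not act as `0` on `M` (otherwise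
`C (a z b) X` and `C r X` act as `0`). `J = {p : ∀ i, p.coeff i ∈ I}` is a two-sided ideal of `R[X]`, `C z ∈ J`. The identity holds on `J` by
EXT (`S₀ = {C a : a ∈ I}`, `Γ = {X ^ j}`, `p = ∑ X^j C (p.coeff j)`, `EV_map` for `C`). SPL gives `L`, `n'`, `ρ' : R[X] →ₐ[K] Matrix`, with
`ρ' (C z) ≠ 0`. Let `ρ = ρ' ∘ C` (`Polynomial.CAlgHom`). `X` is central in `R[X]`, so `ρ' X` commutes with `ρ' (J)`, hence with its
`L`-span, which is everything: `ρ' X` is a scalar matrix `μ`. So `ρ' (p) = ∑ μ^j ρ (p.coeff j)` is in the `L`-span of `ρ '' I`, which is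
therefore `⊤`. -/
def SEP_stmt : Prop := ∀ (K : Type u) (R : Type v) [Field K] [Ring R] [Algebra K R] (n : ℕ) (I : Submodule K R),
  Two K R I → Sem K R I ⊥ → MI K R I ⊥ n → ∀ z ∈ I, z ≠ 0 →
  ∃ (L : Type v) (_ : Field L) (_ : Algebra K L) (n' : ℕ) (ρ : R →ₐ[K] Matrix (Fin n') (Fin n') L),
    1 ≤ n' ∧ 2 * n' ≤ n ∧ ρ z ≠ 0 ∧ Submodule.span L (ρ '' (I : Set R)) = ⊤

/-! ## Part 3: central polynomials (Razmyslov) -/

/-- the Capelli expression `∑_σ sign σ • y_0 x_{σ 0} y_1 x_{σ 1} ⋯ y_{m-1} x_{σ (m-1)} y_m`. -/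
def Cap {R : Type v} [Ring R] (m : ℕ) (x : Fin m → R) (y : ℕ → R) : R :=
  ∑ σ : Equiv.Perm (Fin m), (Equiv.Perm.sign σ : ℤ) • ((List.ofFn fun k : Fin m => y k * x (σ k)).prod * y m)

/-- Razmyslov's transform in the variable `x_0` (`x 0` is not used): if the summand of `Cap (m+1)` is `A x_0 B` then the
summand of `RZ` is `B w A`. With `p = σ⁻¹ 0` the position of `x_0`: `A = y_0 x_{σ 0} ⋯ x_{σ (p-1)} y_p`,
`B = y_{p+1} x_{σ(p+1)} ⋯ x_{σ m} y_{m+1}`. -/
def RZ {R : Type v} [Ring R] (m : ℕ) (x : Fin (m + 1) → R) (y : ℕ → R) (w : R) : R :=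
  ∑ σ : Equiv.Perm (Fin (m + 1)), (Equiv.Perm.sign σ : ℤ) •
    ((((List.ofFn fun k : Fin (m + 1) => y k * x (σ k)).drop ((σ⁻¹ 0 : Fin (m + 1)).val + 1)).prod * y (m + 1)) * w *
      (((List.ofFn fun k : Fin (m + 1) => y k * x (σ k)).take (σ⁻¹ 0 : Fin (m + 1)).val).prod * y (σ⁻¹ 0 : Fin (m + 1)).val))

/-- **CA** (medium). `Cap` is multilinear and alternating: it vanishes on linearly dependent families; and expansion in one
variable. uses: nothing.
PROOF. `x ↦ (List.ofFn fun k => y k * x k).prod * y m` is an `L`-multilinear map (`MultilinearMap.mkPiAlgebraFin` composed with the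
multiplications by `y k`), and `Cap m · y` is its alternatization (`MultilinearMap.alternatization`), an `AlternatingMap`:
`AlternatingMap.map_linearDependent`. The second part is the additivity of this alternating map. -/
def CA_stmt : Prop := ∀ (L : Type u) (R : Type v) [Field L] [Ring R] [Algebra L R] (m : ℕ) (y : ℕ → R),
  ∃ F : AlternatingMap L R R (Fin m), ∀ x : Fin m → R, F x = Cap m x y

/-- **CB** (medium). Some value of `Cap (n * n)` on `n × n` matrices is nonzero. uses: nothing.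
PROOF. Let `e : Fin (n * n) ≃ Fin n × Fin n` (`finProdFinEquiv.symm`), `x k = E_{i_k j_k}` (`Matrix.single`), `(i_k, j_k) = e k`. Take `y_0 = E_{i_0 i_0}`,
`y_k = E_{j_{k-1} i_k}` for `1 ≤ k < n²`, `y_{n²} = E_{j j}` with `j = j_{n²-1}`. In the summand of `σ` the factor `y_k x_{σ k} y_{k+1}` is `0` unless
`σ k = k` (the row of `x_{σ k}` must be `i_k` and its column `j_k`, and `e` is injective). So `Cap = y_0 x_0 y_1 ⋯ = E_{i_0 j} ≠ 0`. -/
def CB_stmt : Prop := ∀ (L : Type w) [Field L] (n : ℕ), 1 ≤ n →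
  ∃ (x : Fin (n * n) → Matrix (Fin n) (Fin n) L) (y : ℕ → Matrix (Fin n) (Fin n) L), Cap (n * n) x y ≠ 0

/-- **TR** (medium). The trace relation between `Cap` and `RZ`. uses: nothing.
PROOF. For each `σ`, with `p = σ⁻¹ 0`, the list of `Cap` for `x' = Fin.cons a (fun i => x i.succ)` is
`take p ++ [y_p * a] ++ drop (p+1)` of the list of `RZ` (the entries with `σ k ≠ 0` do not see `x 0`), so the summand of `Cap` is
`(T y_p) a (D y_{m+1})` with `T, D` the products of `RZ`; `trace (b * (D' w T')) = trace (T' b D' w)` by cyclicity (`Matrix.trace_mul_comm`). -/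
def TR_stmt : Prop := ∀ (L : Type w) [Field L] (n m : ℕ) (x : Fin (m + 1) → Matrix (Fin n) (Fin n) L)
  (y : ℕ → Matrix (Fin n) (Fin n) L) (a b : Matrix (Fin n) (Fin n) L),
  Matrix.trace (a * RZ m x y b) =
    Matrix.trace (Cap (m + 1) (Fin.cons a (fun i => x i.succ)) y * b)

/-- **FR** (medium/LONG). `RZ` with commutators is a multilinear expression, uniformly in the ring. uses: nothing.
PROOF. Variables: `w` is variable `0`, `u_i` is `3 i + 1`, `v_i` is `3 i + 2` (`1 ≤ i ≤ m`), `y_k` is `3 k + 3` (`0 ≤ k ≤ m+1`). Say that `F` (a function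
on `ℕ → R` for every ring `R : Type w`) is representable by `s` if `∃ c, ∀ R x, EV c s x = F R x`. If `F, G` are representable by `s, t` with
`s ++ t` nodup then `F G` is representable by `s ++ t` (`c w = c₁ (w.take s.length) * c₂ (w.drop s.length)` if
`w.take s.length` is a reordering of `s`, else `0`), sums, differences and integer multiples of functions representable by `s` are
representable by `s`, and if `s.Perm t` then representable by `s` and by `t` are the same. A variable `x i` is representable by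
`[i]`, a commutator `x i x j - x j x i` by `[i, j]`. Each summand `B w A` of `RZ` is representable by a reordering of the list
of all variables. -/
def FR_stmt : Prop := ∀ m : ℕ, ∃ (s : List ℕ) (c : List ℕ → ℤ), s.Nodup ∧ s ≠ [] ∧
  ∀ (R : Type w) [Ring R] (x : ℕ → R), EV c s x =
    RZ m (fun i => x (3 * i.val + 1) * x (3 * i.val + 2) - x (3 * i.val + 2) * x (3 * i.val + 1))
      (fun k => x (3 * k + 3)) (x 0)

/-- **CP** (LONG). Central polynomials. uses: CA, CB, TR, FR.
PROOF. Let `m + 1 = n²` and `s, c` from FR for `m`. Let `L` be a field of characteristic 0, `x` matrices of size `k ≤ n`, `x_i = [u_i, v_i]`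
(trace `0`), `Z = RZ m x y w`. (1) `k < n`: for all `a`, `Cap (m+1) (a, x_1, …, x_m) y = 0` because `m + 1 = n² > k²` (CA,
`AlternatingMap.map_linearDependent`), so `trace (a Z) = 0` for all `a` (TR) and `Z = 0`. (2) `k = n`: for `a` of trace `0`, `a, x_1, …, x_m`
are `n²` elements of the hyperplane of trace zero matrices (dimension `n² - 1`), so dependent, so `trace (a Z) = 0` for all `a` of trace
`0`; with `a = E_ij`, `i ≠ j`, and `a = E_ii - E_jj`: `Z` is scalar. (3) Some value is nonzero: otherwise `trace (a Z) = 0` for all `a`, so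
`Cap (m+1) (a, x_1, …, x_m) y = 0` for all `a`, `y` and all commutators `x_i` (TR: `trace (Cap * w) = 0` for all `w`), hence for all trace
zero `x_i` (multilinear; every trace zero matrix is a sum of commutators: `E_ij = [E_ii, E_ij]`, `E_ii - E_jj = [E_ij, E_ji]`), and for
all `a`. Every `x_i` is `(tr x_i / n) 1 +` a trace zero matrix (characteristic 0); expanding the alternating map, terms with two
`1` vanish, terms with at most one `1` vanish by what was shown (move the `1`, or any entry, to position `0` with a swap). So `Cap (n²) = 0` on all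
matrices, contradicting CB. -/
def CP_stmt : Prop := ∀ n : ℕ, 1 ≤ n → ∃ (s : List ℕ) (c : List ℕ → ℤ), s.Nodup ∧ s ≠ [] ∧
  ∀ (L : Type w) [Field L] [CharZero L],
    (∀ x : ℕ → Matrix (Fin n) (Fin n) L, ∃ l : L, EV c s x = l • (1 : Matrix (Fin n) (Fin n) L)) ∧
    (∃ x : ℕ → Matrix (Fin n) (Fin n) L, EV c s x ≠ 0) ∧
    (∀ k < n, ∀ x : ℕ → Matrix (Fin k) (Fin k) L, EV c s x = 0)

/-- **MA** (medium). The centre of a semiprime PI algebra. uses: EXT, SEP, CP.
PROOF. Let `P(n')` be: there are `L, ρ` as in SEP (without `z`: `1 ≤ n'`, `2 n' ≤ n`, `span L (ρ '' I) = ⊤`). By SEP some `P(n')` holds; let `n₀` be the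
largest (`n' ≤ n`), with `L₀, ρ₀`, and `s, c` from CP for `n₀` (`CharZero L` from `Algebra K L`). (a) some value `z = EV c s x`, `x i ∈ I`, is `≠ 0`: otherwise `EV c s`
vanishes on `ρ₀ '' I`, hence (EXT with `k = ℤ`, `S = ρ₀ '' I`, `Γ` = scalar matrices; the `L₀`-span of `ρ₀ '' I` is
contained in the `ℤ`-span of the products) on all matrices, contradiction with CP. (b) `z ∈ I` (`s ≠ []`, every word has a
factor in `I`). (c) for `a ∈ I` let `t = z a - a z ∈ I`; if `t ≠ 0`, SEP for `t` gives `L, n', ρ` with `ρ t ≠ 0`, `n' ≤ n₀`; but `ρ z = EV c s (ρ ∘ x)` is a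
scalar matrix (`n' = n₀`) or `0` (`n' < n₀`), so `ρ t = 0`. (`EV_map` for `ρ.restrictScalars ℤ` / `ρ.toIntAlgHom`.) -/
def MA_stmt : Prop := ∀ (K : Type u) (R : Type v) [Field K] [CharZero K] [Ring R] [Algebra K R] (n : ℕ)
  (I : Submodule K R), Two K R I → Sem K R I ⊥ → MI K R I ⊥ n → I ≠ ⊥ →
  ∃ z ∈ I, z ≠ 0 ∧ ∀ a ∈ I, z * a = a * z

/-! ## Part 4: the algebra of sequences -/

/-- **QU** (medium). The relative form of MA. uses: MA.
PROOF. Apply MA to the quotient ring `R ⧸ W` (`W` as a two-sided ideal, `Ideal.IsTwoSided`, `Ideal.Quotient`, or `RingCon.Quotient` of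
`TwoSidedIdeal`), a `K`-algebra, and the image of `I`. -/
def QU_stmt : Prop := ∀ (K : Type u) (R : Type v) [Field K] [CharZero K] [Ring R] [Algebra K R] (n : ℕ)
  (I W : Submodule K R), Two K R I → Two K R W → W ≤ I → Sem K R I W → MI K R I W n → ¬ I ≤ W →
  ∃ z ∈ I, z ∉ W ∧ ∀ a ∈ I, z * a - a * z ∈ W

/-- **SEL** (medium). Uniformity. uses: nothing.
PROOF. Suppose not: for every `k` there are `n_k` and `a_k ∈ A` with `F n_k a_k ∉ T k`. For each `n` the set `{k : n_k = n}` is bounded (all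
`F n a`, `a ∈ A`, lie in one `T m`, and `T` is monotone, so `n_k = n` implies `k < m`). Let `b n = a_k` for the largest `k` with `n_k = n` (`0` if there is
none). For every `k`, with `k' ≥ k` the largest index with `n_{k'} = n_k`: `F n_k (b n_k) ∉ T k'`, so `∉ T k`. -/
def SEL_stmt : Prop := ∀ (K : Type u) (U : Type v) [Field K] [Ring U] [Algebra K U] (A : Submodule K U)
  (T : ℕ → Submodule K U), (∀ k, T k ≤ T (k + 1)) → ∀ F : ℕ → U → U,
  (∀ n, ∃ m, ∀ a ∈ A, F n a ∈ T m) →
  (∀ b : ℕ → U, (∀ n, b n ∈ A) → ∃ k, ∀ n, F n (b n) ∈ T k) →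
  ∃ k, ∀ n, ∀ a ∈ A, F n a ∈ T k

/-- **SQ** (LONG). A PI quotient gives asymptotically central elements. uses: QU, SEL.
PROOF. `R = ℕ → U` (`Pi` ring, `K`-algebra), `I = {x : ∀ n, x n ∈ A}`, `W = {x : ∃ k, ∀ n, x n ∈ T k}` (a submodule by monotonicity). Both two-sided,
`W ≤ I`, `¬ I ≤ W` (choose `x n ∈ A`, `x n ∉ T n`). Identity: `(EV c s x) n = EV c s (fun i => x i n)` (`EV_map` for `Pi.evalAlgHom`), so it lies in
`T l` for all `n`. `Sem K R I W`: let `x ∈ I`, `x u x ∈ W` for all `u ∈ I`. SEL with `F n a = x n * a * x n`: one `k` with `x_n a x_n ∈ T k` for all `n`, `a ∈ A`. Let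
`N` with all products of `N` elements of `T k` zero (`T k ^ N = ⊥`). For each `n` let `J_n = K x_n + U x_n + x_n U + U x_n U` (`= U x_n U` as `1 ∈ U`: `J_n = ⊤ * span {x_n} * ⊤`),
a two-sided ideal `≤ A`. `J_n ^ 3 ≤ T k`: a product `(u₀ x u₁)(u₂ x u₃)(u₄ x u₅)` contains `x (u₁ u₂) x (u₃ u₄) x`, where `(u₁ u₂) x (u₃ u₄) ∈ A`.
So `J_n ^ (3 N) = ⊥` and `x_n ∈ J_n ≤ T M` with `M` depending only on `N` (hypothesis `hcl`). So `x ∈ W`. Now QU gives `z`, and SEL with
`F n a = z n * a - a * z n` the uniform `k`. -/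
def SQ_stmt : Prop := ∀ (K : Type u) (U : Type v) [Field K] [CharZero K] [Ring U] [Algebra K U] (A : Submodule K U)
  (T : ℕ → Submodule K U), Two K U A → (∀ k, Two K U (T k) ∧ T k ≤ A ∧ T k ≤ T (k + 1) ∧ T k ≠ A) →
  (∀ a ∈ A, ∃ k, a ∈ T k) → (∀ k, ∃ N : ℕ, T k ^ N = ⊥) →
  (∀ N : ℕ, ∃ M : ℕ, ∀ J : Submodule K U, Two K U J → J ≤ A → J ^ N = ⊥ → J ≤ T M) →
  ∀ (l : ℕ) (n : ℕ), MI K U A (T l) n →
  ∃ z : ℕ → U, (∀ n, z n ∈ A) ∧ (∀ k, ∃ n, z n ∉ T k) ∧ ∃ k, ∀ n, ∀ a ∈ A, z n * a - a * z n ∈ T k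

/-- **CQ** (medium). CommutativeQuotient (landed) in the form needed. uses: `Pool.Agent.helper61.PN.main` (import
`Pool.Agent.helper61.PN.Final`), see `Pool/Agent/Results/MP_3938c6_al/CommutativeQuotient.lean`.
PROOF. Apply it to the quotient algebra `A ⧸ T`: e.g. the image of `A` in the quotient of `Unitization K A` by the two-sided ideal
`{x : x.fst = 0, x.snd ∈ T}`, as a `NonUnitalSubalgebra`; or put a non unital ring structure on `A ⧸ T` by hand. -/
def CQ_stmt : Prop := ∀ (K : Type u) (A : Type v) [Field K] [CharZero K] [NonUnitalRing A] [Module K A]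
  [IsScalarTower K A A] [SMulCommClass K A A], 1 < Module.rank K A →
  (∀ B : NonUnitalSubalgebra K A, B ≠ ⊤ →
    ∃ n : ℕ, ∀ a ∈ B, ∀ l : List A, (∀ x ∈ l, x ∈ B) → l.length = n → l.foldl (fun x y => x * y) a = 0) →
  ∀ T : Submodule K A, (∀ a : A, ∀ x ∈ T, a * x ∈ T ∧ x * a ∈ T) → T ≠ ⊤ → (∀ a b : A, a * b - b * a ∈ T) →
  ∃ n : ℕ, ∀ a : A, ∀ l : List A, l.length = n → l.foldl (fun x y => x * y) a = 0

end Pool.Agent.PX
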