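import Pool.Agent.helper66.PX.LNW

/-! # Project PX: LN -/

set_option autoImplicit false

namespace Pool.Agent.PX

universe u v

/-- products of nonempty lists in a subspace closed under multiplication. -/
theorem LN_prod {K : Type u} {R : Type v} [Field K] [Ring R] [Algebra K R] {U : Submodule K R}
    (hU : ∀ x ∈ U, ∀ y ∈ U, x * y ∈ U) (l : List R) (hl : ∀ x ∈ l, x ∈ U) (hne : l ≠ []) : l.prod ∈ U := by
  induction l with
  | nil => exact absurd rfl hne
  | cons a l ih =>
    rw [List.prod_cons]
    by_cases h : l = []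
    · rw [h, List.prod_nil, mul_one]
      exact hl a List.mem_cons_self
    · exact hU _ (hl a List.mem_cons_self) _ (ih (fun x hx => hl x (List.mem_cons_of_mem _ hx)) h)

theorem LN : LN_stmt.{u, v} := by
  intro K R _ _ _ n
  induction n with
  | zero =>
    intro U W hWU hU hUW hSem hnil hMI
    obtain ⟨s, c, hs, hlen, ⟨w, hw, hcw⟩, hid⟩ := hMI
    have h1 : s = [] := List.length_eq_zero_iff.1 hlen
    subst h1
    have h2 : w = [] := List.Perm.eq_nil hw
    subst h2
    have h3 := hid (fun _ => 0) (fun _ => U.zero_mem)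
    have h4 : EV c [] (fun _ => (0 : R)) = c [] • (1 : R) := by
      unfold EV
      simp
    rw [h4] at h3
    have h5 : (1 : R) ∈ W := by
      have h6 := W.smul_mem (c [])⁻¹ h3
      rwa [smul_smul, inv_mul_cancel₀ hcw, one_smul] at h6
    intro x hx
    have h6 := (hUW x hx 1 h5).1
    rwa [mul_one] at h6
  | succ n ih =>
    intro U W hWU hU hUW hSem hnil hMI
    classical
    by_contra hcon
    rw [SetLike.not_le_iff_exists] at hcon
    obtain ⟨b₀, hb₀, hb₀W⟩ := hcon
    have hex := hnil b₀ hb₀
    obtain ⟨k, hk, hkmin⟩ : ∃ k, b₀ ^ (k + 1) ∈ W ∧ ∀ m < k, b₀ ^ (m + 1) ∉ W :=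
      ⟨Nat.find hex, Nat.find_spec hex, fun m hm => Nat.find_min hex hm⟩
    have hk1 : k ≠ 0 := by
      rintro rfl
      rw [zero_add, pow_one] at hk
      exact hb₀W hk
    obtain ⟨k', rfl⟩ := Nat.exists_eq_succ_of_ne_zero hk1
    have hpow : ∀ m, b₀ ^ (k' + 1 + 1 + m) ∈ W := by
      intro m
      induction m with
      | zero => exact hk
      | succ m ihm =>
        rw [← add_assoc, pow_succ]
        exact (hUW b₀ hb₀ _ ihm).2
    have hpowU : ∀ m, b₀ ^ (m + 1) ∈ U := by
      intro m
      induction m with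
      | zero => rw [zero_add, pow_one]; exact hb₀
      | succ m ihm =>
        rw [pow_succ]
        exact hU _ ihm _ hb₀
    obtain ⟨a, ha⟩ : ∃ a, a = b₀ ^ (k' + 1) := ⟨_, rfl⟩
    have haU : a ∈ U := ha ▸ hpowU k'
    have haW : a ∉ W := ha ▸ hkmin k' (Nat.lt_succ_self _)
    have haa : a * a ∈ W := by
      rw [ha, ← pow_add]
      have h1 : k' + 1 + (k' + 1) = k' + 1 + 1 + k' := by omega
      rw [h1]
      exact hpow k'
    clear ha hpow hpowU hkmin hk hex
    -- contradiction when all `a u a` lie in `W`
    have hfin : ¬ ∀ u ∈ U, a * u * a ∈ W := fun h => haW (hSem a haU h)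
    -- the data of the identity
    obtain ⟨s, c, hs, hlen, ⟨w₀, hw₀, hcw₀⟩, hid⟩ := hMI
    have hw₀ne : w₀ ≠ [] := by
      rintro rfl
      have h1 := hw₀.length_eq
      rw [hlen, List.length_nil] at h1
      omega
    obtain ⟨w₁, p, rfl⟩ : ∃ w₁ p, w₀ = w₁ ++ [p] :=
      ⟨w₀.dropLast, w₀.getLast hw₀ne, (List.dropLast_append_getLast hw₀ne).symm⟩
    have hp : p ∈ s := hw₀.mem_iff.1 (by simp)
    have hw₁ : w₁.Perm (s.erase p) := by
      have h1 : (p :: w₁).Perm s := (List.perm_append_comm (l₁ := [p]) (l₂ := w₁)).trans hw₀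
      exact (List.perm_cons p).1 (h1.trans (List.perm_cons_erase hp))
    have hlen' : (s.erase p).length = n := by
      rw [List.length_erase_of_mem hp, hlen]
      rfl
    have hkey : ∀ x r : ℕ → R, (∀ i, r i ∈ U) → (∀ i, x i = a * r i) → ∀ b ∈ U,
        EV (fun w => c (w ++ [p])) (s.erase p) x * (b * a) ∈ W := by
      intro x r hr hx b hb
      have h1 := hid (Function.update x p (b * a)) (by
        intro i
        by_cases h : i = p
        · subst h
          rw [Function.update_self]
          exact hU _ hb _ haU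
        · rw [Function.update_of_ne h, hx]
          exact hU _ haU _ (hr i))
      rw [LN_words s c hs p hp] at h1
      have h2 : ∑ w ∈ s.permutations.toFinset.filter (fun w => w.getLast? ≠ some p),
          c w • (w.map (Function.update x p (b * a))).prod ∈ W := by
        refine W.sum_mem fun w hw => W.smul_mem _ ?_
        rw [Finset.mem_filter, List.mem_toFinset, List.mem_permutations] at hw
        exact LN_tail hU hUW s hs p hp x r a b haU hb haa hr hx w hw.1 hw.2
      have h3 := W.sub_mem h1 h2
      rw [add_sub_cancel_right] at h3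
      exact h3
    -- the smaller algebra
    have hU'mem : ∀ x, x ∈ U.map (LinearMap.mulLeft K a) ↔ ∃ u ∈ U, a * u = x := fun x => by
      rw [Submodule.mem_map]
      rfl
    obtain ⟨U', hU'⟩ : ∃ U' : Submodule K R, U' = U.map (LinearMap.mulLeft K a) := ⟨_, rfl⟩
    rw [← hU'] at hU'mem
    have hU'U : ∀ x ∈ U', x ∈ U := by
      intro x hx
      obtain ⟨u, hu, rfl⟩ := (hU'mem x).1 hx
      exact hU _ haU _ hu
    have hU'mul : ∀ x ∈ U', ∀ y ∈ U', x * y ∈ U' := by
      intro x hx y hy
      obtain ⟨u, hu, rfl⟩ := (hU'mem x).1 hx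
      exact (hU'mem _).2 ⟨u * y, hU _ hu _ (hU'U y hy), (mul_assoc _ _ _).symm⟩
    let W' : Submodule K R :=
      { carrier := {x | x ∈ U' ∧ ∀ v ∈ U, x * a * v ∈ W}
        add_mem' := by
          rintro x y ⟨h1, h2⟩ ⟨h3, h4⟩
          refine ⟨U'.add_mem h1 h3, fun v hv => ?_⟩
          rw [add_mul, add_mul]
          exact W.add_mem (h2 v hv) (h4 v hv)
        zero_mem' := ⟨U'.zero_mem, fun v _ => by rw [zero_mul, zero_mul]; exact W.zero_mem⟩
        smul_mem' := by
          rintro k x ⟨h1, h2⟩
          refine ⟨U'.smul_mem _ h1, fun v hv => ?_⟩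
          rw [smul_mul_assoc, smul_mul_assoc]
          exact W.smul_mem _ (h2 v hv) }
    have hW'mem : ∀ x, x ∈ W' ↔ x ∈ U' ∧ ∀ v ∈ U, x * a * v ∈ W := fun x => Iff.rfl
    have hSem' : Sem K R U' W' := by
      intro x hx h
      rw [hW'mem]
      refine ⟨hx, fun v hv => ?_⟩
      refine hSem _ (hU _ (hU _ (hU'U x hx) _ haU) _ hv) ?_
      intro u hu
      have h1 := h (a * (v * u)) ((hU'mem _).2 ⟨v * u, hU _ hv _ hu, rfl⟩)
      have h2 := h1.2 v hv
      have h3 : x * a * v * u * (x * a * v) = x * (a * (v * u)) * x * a * v := by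
        simp only [mul_assoc]
      rw [h3]
      exact h2
    have hle : U' ≤ W' := by
      refine ih U' W' (fun x hx => hx.1) hU'mul ?_ hSem' ?_ ?_
      · intro x hx y hy
        rw [hW'mem] at hy
        rw [hW'mem, hW'mem]
        refine ⟨⟨hU'mul _ hx _ hy.1, fun v hv => ?_⟩, hU'mul _ hy.1 _ hx, fun v hv => ?_⟩
        · rw [mul_assoc, mul_assoc]
          have h1 := (hUW x (hU'U x hx) _ (hy.2 v hv)).1
          rwa [mul_assoc] at h1
        · obtain ⟨u, hu, rfl⟩ := (hU'mem x).1 hx
          have h1 := hy.2 (u * a * v) (hU _ (hU _ hu _ haU) _ hv)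
          have h2 : y * (a * u) * a * v = y * a * (u * a * v) := by simp only [mul_assoc]
          rw [h2]
          exact h1
      · intro x hx
        obtain ⟨k, hk⟩ := hnil x (hU'U x hx)
        refine ⟨k, (hW'mem _).2 ⟨?_, fun v hv => ?_⟩⟩
        · clear hk
          induction k with
          | zero => rw [zero_add, pow_one]; exact hx
          | succ k ihk => rw [pow_succ]; exact hU'mul _ ihk _ hx
        · rw [mul_assoc]
          exact (hUW _ (hU _ haU _ hv) _ hk).2
      · refine ⟨s.erase p, fun w => c (w ++ [p]), hs.erase p, hlen', ⟨w₁, hw₁, hcw₀⟩, ?_⟩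
        intro x hx
        have hx' : ∀ i, ∃ u ∈ U, a * u = x i := fun i => (hU'mem _).1 (hx i)
        choose r hr hxr using hx'
        have hk2 := hkey x r hr (fun i => (hxr i).symm)
        by_cases hn : n = 0
        · exfalso
          apply hfin
          have h1 : s.erase p = [] := List.length_eq_zero_iff.1 (by rw [hlen', hn])
          rw [h1] at hw₁
          have h2 : w₁ = [] := List.Perm.eq_nil hw₁
          rw [h2] at hcw₀
          have h3 : EV (fun w => c (w ++ [p])) (s.erase p) x = c ([] ++ [p]) • (1 : R) := by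
            rw [h1]
            unfold EV
            simp
          rw [h3] at hk2
          intro u hu
          have h4 := W.smul_mem (c ([] ++ [p]))⁻¹ (hk2 (a * u) (hU _ haU _ hu))
          rwa [smul_mul_assoc, one_mul, smul_smul, inv_mul_cancel₀ hcw₀, one_smul] at h4
        · have hy : EV (fun w => c (w ++ [p])) (s.erase p) x ∈ U' := by
            unfold EV
            refine U'.sum_mem fun w hw => U'.smul_mem _ (LN_prod hU'mul _ ?_ ?_)
            · intro y hy
              rw [List.mem_map] at hy
              obtain ⟨i, _, rfl⟩ := hy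
              exact hx i
            · intro h
              rw [List.map_eq_nil_iff] at h
              rw [List.mem_toFinset, List.mem_permutations] at hw
              have h5 := hw.length_eq
              rw [h, hlen', List.length_nil] at h5
              exact hn h5.symm
          rw [hW'mem]
          refine ⟨hy, fun v hv => ?_⟩
          obtain ⟨s₀, hs₀, hys⟩ := (hU'mem _).1 hy
          generalize EV (fun w => c (w ++ [p])) (s.erase p) x = y at hk2 hy hys
          refine hSem _ (hU _ (hU _ (hU'U y hy) _ haU) _ hv) ?_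
          intro u hu
          have h1 : y * a * v * u * (y * a * v) = y * (a * v * u * a) * (s₀ * a * v) := by
            conv_lhs => rw [← hys]
            rw [← hys]
            simp only [mul_assoc]
          rw [h1]
          have h2 := hk2 (a * v * u) (hU _ (hU _ haU _ hv) _ hu)
          exact (hUW _ (hU _ (hU _ hs₀ _ haU) _ hv) _ h2).2
    apply hfin
    intro u hu
    refine hSem _ (hU _ (hU _ haU _ hu) _ haU) ?_
    intro v hv
    have h1 : a * u ∈ W' := hle ((hU'mem _).2 ⟨u, hu, rfl⟩)
    have h2 := ((hW'mem _).1 h1).2 (v * a * u * a) (hU _ (hU _ (hU _ hv _ haU) _ hu) _ haU)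
    have h3 : a * u * a * v * (a * u * a) = a * u * a * (v * a * u * a) := by simp only [mul_assoc]
    rw [h3]
    exact h2

end Pool.Agent.PX
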