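import Pool.Agent.helper66.PX.Fin
import Pool.Agent.helper66.PX.LN
import Pool.Agent.helper20.PX.CA
import Pool.Agent.helper22.PX.CB
import Pool.Agent.helper85.PX.CP
import Pool.Agent.helper58.PX.CQ
import Pool.Agent.helper98.PX.DN
import Pool.Agent.helper30.PX.EXT
import Pool.Agent.helper15.PX.FR
import Pool.Agent.helper6.PX.MA
import Pool.Agent.helper37.PX.ML
import Pool.Agent.helper95.PX.NNI
import Pool.Agent.helper83.PX.QU
import Pool.Agent.helper88.PX.SEL
import Pool.Agent.helper13.PX.SEP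
import Pool.Agent.helper3.PX.SM
import Pool.Agent.helper99.PX.SPL
import Pool.Agent.helper89.PX.SQ
import Pool.Agent.helper69.PX.ST
import Pool.Agent.helper67.PX.TR
import Pool.Agent.helper32.NN.All

/-! # Project PX: the rows together -/

set_option autoImplicit false

namespace Pool.Agent.PX

open Pool.Agent.NN

universe u v w

theorem all_SQ : SQ_stmt.{u, v} := by
  have h1 : NNI_stmt.{u, v} := NNI LN.{u, v}
  have h2 : SPL_stmt.{u, v, v} := SPL DN.{u, v, v} (ST EXT.{u, v})
  have h3 : SEP_stmt.{u, v} := SEP EXT.{u, v} h1 SM.{v} h2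
  have h4 : CP_stmt.{v} := CP CA.{v, v} CB.{v} TR.{v} FR.{v}
  have h5 : MA_stmt.{u, v} := MA EXT.{0, v} h3 h4
  exact SQ (QU h5) SEL.{u, v}

theorem all_FI (K : Type u) [Field K] [CharZero K] (A : Type v) [NonUnitalRing A] [Module K A]
    [IsScalarTower K A A] [SMulCommClass K A A] (hdim : 1 < Module.rank K A) (hprop : PropNil K A)
    (A' : Type w) [NonUnitalRing A'] [Module K A'] [IsScalarTower K A' A'] [SMulCommClass K A' A']
    [Nontrivial A'] (π : A →ₙₐ[K] A') (hπ : Function.Surjective π)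
    (p : FreeAlgebra K ℕ) (hp : p ≠ 0)
    (hid : ∀ x : ℕ → A', FreeAlgebra.lift K (fun i => (Unitization.inr (x i) : Unitization K A')) p = 0) :
    Nilp A :=
  FI all_TRA.{u, v} all_TKP.{u, max u v} all_GEN.{u, max u v} all_SQ.{u, max u v} CQ.{u, v} ML.{u, max u v}
    K A hdim hprop A' π hπ p hp hid

end Pool.Agent.PX
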