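import Pool.Agent.helper66.PX.Spec2
import Pool.Agent.helper32.NN.Spec

/-! # Project PX: final assembly -/

set_option autoImplicit false

namespace Pool.Agent.PX

open Pool.Agent.NN

universe u v w

section
variable {K : Type u} [Field K] {A : Type v} [NonUnitalRing A] [Module K A] [IsScalarTower K A A]
  [SMulCommClass K A A]

theorem FI_mem (J : Submodule K A) (x : Unitization K A) : x ∈ im K A J ↔ x.fst = 0 ∧ x.snd ∈ J := by
  unfold im
  rw [Submodule.mem_map]
  constructor
  · rintro ⟨y, hy, rfl⟩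
    exact ⟨rfl, hy⟩
  · rintro ⟨h1, h2⟩
    refine ⟨x.snd, h2, ?_⟩
    ext
    · exact h1.symm
    · rfl

theorem FI_two {J : Submodule K (Unitization K A)} (h : IsId (im K A ⊤) J) :
    Two K (Unitization K A) J := by
  intro a x hx
  have ha : a = algebraMap K _ a.fst + (Unitization.inr a.snd : Unitization K A) := by
    rw [Unitization.algebraMap_eq_inl]
    exact (Unitization.inl_fst_add_inr_snd_eq a).symm
  have hs : (Unitization.inr a.snd : Unitization K A) ∈ im K A ⊤ :=
    (FI_mem _ _).2 ⟨rfl, Submodule.mem_top⟩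
  constructor
  · rw [ha, add_mul]
    refine J.add_mem ?_ (h.2.1 (Submodule.mul_mem_mul hs hx))
    rw [← Algebra.smul_def]
    exact J.smul_mem _ hx
  · rw [ha, mul_add]
    refine J.add_mem ?_ (h.2.2 (Submodule.mul_mem_mul hx hs))
    rw [← Algebra.commutes, ← Algebra.smul_def]
    exact J.smul_mem _ hx

theorem FI_isId {J : Submodule K (Unitization K A)} (h : Two K (Unitization K A) J)
    (hJ : J ≤ im K A ⊤) : IsId (im K A ⊤) J := by
  refine ⟨hJ, ?_, ?_⟩
  · rw [Submodule.mul_le]
    intro a _ x hx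
    exact (h a x hx).1
  · rw [Submodule.mul_le]
    intro x hx a _
    exact (h a x hx).2

end

/-- the theorem on polynomial identities. -/
theorem FI (hTRA : TRA_stmt.{u, v}) (hTKP : TKP_stmt.{u, max u v}) (hGEN : GEN_stmt.{u, max u v})
    (hSQ : SQ_stmt.{u, max u v}) (hCQ : CQ_stmt.{u, v}) (hML : ML_stmt.{u, max u v})
    (K : Type u) [Field K] [CharZero K] (A : Type v) [NonUnitalRing A] [Module K A]
    [IsScalarTower K A A] [SMulCommClass K A A] (hdim : 1 < Module.rank K A) (hprop : PropNil K A)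
    (A' : Type w) [NonUnitalRing A'] [Module K A'] [IsScalarTower K A' A'] [SMulCommClass K A' A']
    [Nontrivial A'] (π : A →ₙₐ[K] A') (hπ : Function.Surjective π)
    (p : FreeAlgebra K ℕ) (hp : p ≠ 0)
    (hid : ∀ x : ℕ → A', FreeAlgebra.lift K (fun i => (Unitization.inr (x i) : Unitization K A')) p = 0) :
    Nilp A := by
  classical
  by_contra hnot
  set 𝒜 : Submodule K (Unitization K A) := im K A ⊤ with h𝒜
  have hcex : Cex K (Unitization K A) 𝒜 := (hTRA K A).1 hdim hprop hnot
  have hT := hTKP K (Unitization K A) 𝒜 hcex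
  obtain ⟨g1, g2, g3⟩ := hGEN K (Unitization K A) 𝒜 hcex
  -- the kernel of `π`
  let N : Submodule K A := LinearMap.ker (π : A →ₗ[K] A')
  have hNmem : ∀ a : A, a ∈ N ↔ π a = 0 := fun a => LinearMap.mem_ker
  have hNid : IdealOf K A N := by
    intro a x hx
    rw [hNmem] at hx
    constructor
    · rw [hNmem, map_mul, hx, mul_zero]
    · rw [hNmem, map_mul, hx, zero_mul]
  have hNtop : N ≠ ⊤ := by
    intro h
    obtain ⟨b, hb⟩ := exists_ne (0 : A')
    obtain ⟨a, rfl⟩ := hπ b
    exact hb ((hNmem a).1 (h ▸ Submodule.mem_top))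
  have hNA : im K A N ≤ 𝒜 := by
    intro x hx
    rw [FI_mem] at hx
    exact (FI_mem _ _).2 ⟨hx.1, Submodule.mem_top⟩
  have hNne : im K A N ≠ 𝒜 := by
    intro h
    apply hNtop
    rw [eq_top_iff]
    intro a _
    have h1 : (Unitization.inr a : Unitization K A) ∈ im K A N := by
      rw [h]
      exact (FI_mem _ _).2 ⟨rfl, Submodule.mem_top⟩
    exact ((FI_mem _ _).1 h1).2
  have hNmul : im K A N * im K A N ≤ im K A N := by
    rw [Submodule.mul_le]
    intro x hx y hy
    rw [FI_mem] at hx hy ⊢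
    refine ⟨?_, ?_⟩
    · rw [Unitization.fst_mul, hx.1, zero_mul]
    · rw [Unitization.snd_mul, hx.1, hy.1, zero_smul, zero_smul, zero_add, zero_add]
      exact (hNid _ _ hy.2).1
  obtain ⟨l, hl⟩ := g2 (im K A N) hNA hNmul hNne
  -- the identity modulo the kernel
  have hMI : ∃ n : ℕ, MI K (Unitization K A) 𝒜 (TT 𝒜 l) n := by
    refine hML K (Unitization K A) 𝒜 (TT 𝒜 l) p hp ?_
    intro x hx
    apply hl
    let Φ : Unitization K A →ₐ[K] Unitization K A' :=
      ((Unitization.inrNonUnitalAlgHom K A').comp π).toAlgHom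
    have hΦ : ∀ y : Unitization K A, Φ y = algebraMap K _ y.fst + (Unitization.inr (π y.snd) : Unitization K A') :=
      fun y => rfl
    have h1 : Φ (FreeAlgebra.lift K x p) = 0 := by
      have h2 : Φ.comp (FreeAlgebra.lift K x)
          = FreeAlgebra.lift K (fun i => (Unitization.inr (π (x i).snd) : Unitization K A')) := by
        apply FreeAlgebra.hom_ext
        funext i
        have h3 : x i = (Unitization.inr (x i).snd : Unitization K A) := by
          ext
          · exact ((FI_mem _ _).1 (hx i)).1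
          · rfl
        simp only [Function.comp_apply, AlgHom.coe_comp, FreeAlgebra.lift_ι_apply]
        conv_lhs => rw [h3]
        rw [hΦ, Unitization.fst_inr, Unitization.snd_inr, map_zero, zero_add]
      have h4 := hid (fun i => π (x i).snd)
      rw [← h2] at h4
      exact h4
    have h5 : ∀ y : Unitization K A, Φ y = 0 → y ∈ im K A N := by
      intro y hy
      rw [hΦ, Unitization.algebraMap_eq_inl] at hy
      rw [FI_mem]
      constructor
      · have := congrArg (fun z : Unitization K A' => z.fst) hy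
        simpa using this
      · rw [hNmem]
        have := congrArg (fun z : Unitization K A' => z.snd) hy
        simpa using this
    exact h5 _ h1
  obtain ⟨n, hMI⟩ := hMI
  have h𝒜id : Two K (Unitization K A) 𝒜 := by
    intro a x hx
    rw [FI_mem] at hx
    constructor
    · rw [FI_mem]
      exact ⟨by rw [Unitization.fst_mul, hx.1, mul_zero], Submodule.mem_top⟩
    · rw [FI_mem]
      exact ⟨by rw [Unitization.fst_mul, hx.1, zero_mul], Submodule.mem_top⟩
  obtain ⟨z, hz, hzu, k, hk⟩ := hSQ K (Unitization K A) 𝒜 (fun k => TT 𝒜 k) h𝒜id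
    (fun k => ⟨FI_two (hT k).1, (hT k).1.1, (hT k).2.2.2, (hT k).2.1⟩) g3
    (fun k => (hT k).2.2.1)
    (fun M => ⟨M, fun J hJ hJA hJM => le_sSup ⟨FI_isId hJ hJA, hJM⟩⟩) l n hMI
  -- the elements commuting with everything modulo `TT 𝒜 k`
  have hTk : Two K (Unitization K A) (TT 𝒜 k) := FI_two (hT k).1
  let Z : Submodule K (Unitization K A) :=
    { carrier := {a | a ∈ 𝒜 ∧ ∀ b ∈ 𝒜, a * b - b * a ∈ TT 𝒜 k}
      add_mem' := by
        rintro a a' ⟨h1, h2⟩ ⟨h3, h4⟩
        refine ⟨Submodule.add_mem _ h1 h3, fun b hb => ?_⟩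
        have h5 := Submodule.add_mem _ (h2 b hb) (h4 b hb)
        have h6 : (a + a') * b - b * (a + a') = (a * b - b * a) + (a' * b - b * a') := by
          rw [add_mul, mul_add]; abel
        rw [h6]
        exact h5
      zero_mem' := ⟨Submodule.zero_mem _, fun b _ => by
        rw [zero_mul, mul_zero, sub_zero]; exact Submodule.zero_mem _⟩
      smul_mem' := by
        rintro c a ⟨h1, h2⟩
        refine ⟨Submodule.smul_mem _ _ h1, fun b hb => ?_⟩
        rw [smul_mul_assoc, mul_smul_comm, ← smul_sub]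
        exact Submodule.smul_mem _ _ (h2 b hb) }
  have hZ : Z = 𝒜 := by
    refine (g1 (Set.range z) ?_).2 ?_ Z ?_ ?_ ?_
    · rintro _ ⟨n, rfl⟩
      exact hz n
    · intro k' hk'
      obtain ⟨m, hm⟩ := hzu k'
      exact hm (hk' ⟨m, rfl⟩)
    · intro a ha
      exact ha.1
    · rw [Submodule.mul_le]
      rintro a ⟨h1, h2⟩ b ⟨h3, h4⟩
      refine ⟨(h𝒜id a b h3).1, fun c hc => ?_⟩
      have h5 : a * b * c - c * (a * b) = a * (b * c - c * b) + (a * c - c * a) * b := by
        noncomm_ring
      rw [h5]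
      exact Submodule.add_mem _ (hTk _ _ (h4 c hc)).1 (hTk _ _ (h2 c hc)).2
    · rintro _ ⟨n, rfl⟩
      exact ⟨hz n, fun b hb => hk n b hb⟩
  have hcomm : ∀ a ∈ 𝒜, ∀ b ∈ 𝒜, a * b - b * a ∈ TT 𝒜 k := by
    intro a ha b hb
    have h1 : a ∈ Z := by rw [hZ]; exact ha
    exact h1.2 b hb
  apply hnot
  let T : Submodule K A := (TT 𝒜 k).comap (Unitization.inrHom K K A)
  have hTmem : ∀ a : A, a ∈ T ↔ (Unitization.inr a : Unitization K A) ∈ TT 𝒜 k := fun a => Iff.rfl
  refine hCQ K A hdim hprop T ?_ ?_ ?_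
  · intro a x hx
    rw [hTmem] at hx
    constructor
    · rw [hTmem, Unitization.inr_mul]
      exact (hTk _ _ hx).1
    · rw [hTmem, Unitization.inr_mul]
      exact (hTk _ _ hx).2
  · intro h
    apply (hT k).2.1
    refine le_antisymm (hT k).1.1 ?_
    intro x hx
    rw [FI_mem] at hx
    have h1 : x = (Unitization.inr x.snd : Unitization K A) := by
      ext
      · exact hx.1
      · rfl
    rw [h1, ← hTmem, h]
    exact Submodule.mem_top
  · intro a b
    rw [hTmem, Unitization.inr_sub, Unitization.inr_mul, Unitization.inr_mul]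
    exact hcomm _ ((FI_mem _ _).2 ⟨rfl, Submodule.mem_top⟩) _ ((FI_mem _ _).2 ⟨rfl, Submodule.mem_top⟩)

end Pool.Agent.PX
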