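import Pool.Agent.helper66.PX.Spec

/-!
# Project PX, second part of the Spec: multilinearization
-/

set_option autoImplicit false

noncomputable section

namespace Pool.Agent.PX

universe u v

/-- **ML** (LONG). Every nonzero polynomial identity implies a nonzero multilinear one (no hypothesis on `K`). uses: nothing.
PROOF. Write `p = ∑_{w ∈ F} κ w • w` in the free algebra (`FreeAlgebra.equivMonoidAlgebraFreeMonoid`: `F` = support in
`FreeMonoid ℕ = List ℕ`), so `FreeAlgebra.lift K x p = ∑_{w ∈ F} κ w • (w.map x).prod` for every `x`. Let `w₀ ∈ F` be of maximal length `d`,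
`f : Fin d → ℕ`, `f k = w₀[k]`. For `y : ℕ → R` with values in `I` and `S ⊆ Fin d` let `x^S i = ∑_{j ∈ S, f j = i} y j ∈ I`. Then
`∑_{S ⊆ Fin d} (-1)^(d - |S|) • lift (x^S) p ∈ W`. For a word `w` of length `ℓ ≤ d`:
`∑_S (-1)^(d-|S|) ∏_{k < ℓ} (∑_{j ∈ S, f j = w_k} y_j) = ∑_{g : Fin ℓ → Fin d, f (g k) = w_k} (∏_k y_{g k}) ∑_{S ⊇ im g} (-1)^(d - |S|)`, and the inner sum
is `1` if `g` is surjective (so `ℓ = d`, `g` a permutation) and `0` otherwise. So
`∑_{σ ∈ Perm (Fin d)} κ (f ∘ σ as a list) • y_{σ 0} ⋯ y_{σ (d-1)} ∈ W`: this is `EV c s y` with `s = List.range d`,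
`c w = κ (w.map f')` for the reorderings `w` of `s` (`f' : ℕ → ℕ` extends `f`), and for `w = s` the coefficient is `κ w₀ ≠ 0`.
(Instead of the closed formula one can also do the linearization one variable at a time; only the statement matters.) -/
def ML_stmt : Prop := ∀ (K : Type u) (R : Type v) [Field K] [Ring R] [Algebra K R] (I W : Submodule K R)
  (p : FreeAlgebra K ℕ), p ≠ 0 → (∀ x : ℕ → R, (∀ i, x i ∈ I) → FreeAlgebra.lift K x p ∈ W) →
  ∃ n : ℕ, MI K R I W n

end Pool.Agent.PX
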