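import Pool.Agent.helper66.PX.Spec

/-! # Project PX: a lemma for LN -/

set_option autoImplicit false

namespace Pool.Agent.PX

universe u v

/-- restriction of `EV` to the words ending with `p`. -/
theorem LN_words {K : Type u} {R : Type v} [Field K] [Ring R] [Algebra K R] (s : List ℕ) (c : List ℕ → K)
    (hs : s.Nodup) (p : ℕ) (hp : p ∈ s) (x : ℕ → R) (z : R) :
    EV c s (Function.update x p z) =
      (∑ w ∈ (s.erase p).permutations.toFinset, c (w ++ [p]) • (w.map x).prod) * z +
      ∑ w ∈ s.permutations.toFinset.filter (fun w => w.getLast? ≠ some p),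
        c w • (w.map (Function.update x p z)).prod := by
  classical
  unfold EV
  rw [← Finset.sum_filter_add_sum_filter_not s.permutations.toFinset (fun w => w.getLast? = some p)]
  congr 1
  rw [Finset.sum_mul]
  symm
  refine Finset.sum_bij (fun w _ => w ++ [p]) ?_ ?_ ?_ ?_
  · intro w hw
    rw [List.mem_toFinset, List.mem_permutations] at hw
    rw [Finset.mem_filter, List.mem_toFinset, List.mem_permutations]
    refine ⟨?_, by simp⟩
    have h1 : (w ++ [p]).Perm (p :: w) := List.perm_append_comm
    exact h1.trans ((List.Perm.cons p hw).trans (List.perm_cons_erase hp).symm)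
  · intro w _ w' _ h
    exact List.append_cancel_right h
  · intro w hw
    rw [Finset.mem_filter, List.mem_toFinset, List.mem_permutations] at hw
    obtain ⟨h1, h2⟩ := hw
    have h3 := List.getLast?_eq_some_iff.1 h2
    obtain ⟨ys, hys⟩ := h3
    refine ⟨ys, ?_, hys.symm⟩
    rw [List.mem_toFinset, List.mem_permutations]
    have h4 : (p :: ys).Perm s := by
      have h5 : (ys ++ [p]).Perm (p :: ys) := List.perm_append_comm
      rw [hys] at h1
      exact h5.symm.trans h1
    exact (List.perm_cons p).1 (h4.trans (List.perm_cons_erase hp))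
  · intro w hw
    rw [List.mem_toFinset, List.mem_permutations] at hw
    have h1 : p ∉ w := by
      intro h
      have h2 := hw.mem_iff.1 h
      exact hs.not_mem_erase h2
    have h2 : w.map (Function.update x p z) = w.map x := by
      apply List.map_congr_left
      intro a ha
      have h3 : a ≠ p := by
        rintro rfl
        exact h1 ha
      exact Function.update_of_ne h3 _ _
    rw [List.map_append, List.prod_append, h2, smul_mul_assoc]
    simp

theorem LN_left {K : Type u} {R : Type v} [Field K] [Ring R] [Algebra K R] {U W : Submodule K R}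
    (hUW : ∀ x ∈ U, ∀ y ∈ W, x * y ∈ W ∧ y * x ∈ W) (l : List R) (hl : ∀ x ∈ l, x ∈ U) (v : R) (hv : v ∈ W) :
    l.prod * v ∈ W := by
  induction l with
  | nil => rw [List.prod_nil, one_mul]; exact hv
  | cons a l ih =>
    rw [List.prod_cons, mul_assoc]
    exact (hUW a (hl a List.mem_cons_self) _ (ih fun x hx => hl x (List.mem_cons_of_mem _ hx))).1

theorem LN_right {K : Type u} {R : Type v} [Field K] [Ring R] [Algebra K R] {U W : Submodule K R}
    (hUW : ∀ x ∈ U, ∀ y ∈ W, x * y ∈ W ∧ y * x ∈ W) (l : List R) (hl : ∀ x ∈ l, x ∈ U) (v : R) (hv : v ∈ W) :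
    v * l.prod ∈ W := by
  induction l generalizing v with
  | nil => rw [List.prod_nil, mul_one]; exact hv
  | cons a l ih =>
    rw [List.prod_cons, ← mul_assoc]
    exact ih (fun x hx => hl x (List.mem_cons_of_mem _ hx)) _ (hUW a (hl a List.mem_cons_self) v hv).2

/-- the words which contain `p` not at the end. -/
theorem LN_tail {K : Type u} {R : Type v} [Field K] [Ring R] [Algebra K R] {U W : Submodule K R}
    (hU : ∀ x ∈ U, ∀ y ∈ U, x * y ∈ U) (hUW : ∀ x ∈ U, ∀ y ∈ W, x * y ∈ W ∧ y * x ∈ W)
    (s : List ℕ) (hs : s.Nodup) (p : ℕ) (hp : p ∈ s) (x r : ℕ → R) (a b : R) (ha : a ∈ U) (hb : b ∈ U)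
    (haa : a * a ∈ W) (hr : ∀ i, r i ∈ U) (hx : ∀ i, x i = a * r i) (w : List ℕ) (hw : w.Perm s)
    (hl : w.getLast? ≠ some p) : (w.map (Function.update x p (b * a))).prod ∈ W := by
  have hmem : ∀ i, Function.update x p (b * a) i ∈ U := by
    intro i
    by_cases h : i = p
    · subst h
      rw [Function.update_self]
      exact hU _ hb _ ha
    · rw [Function.update_of_ne h, hx]
      exact hU _ ha _ (hr i)
  have hmem' : ∀ l : List ℕ, ∀ y ∈ l.map (Function.update x p (b * a)), y ∈ U := by
    intro l y hy
    rw [List.mem_map] at hy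
    obtain ⟨i, _, rfl⟩ := hy
    exact hmem i
  have hpw : p ∈ w := hw.mem_iff.2 hp
  have hnd : w.Nodup := hw.nodup_iff.2 hs
  obtain ⟨w1, w3, rfl⟩ := List.append_of_mem hpw
  cases w3 with
  | nil =>
    exfalso
    apply hl
    simp
  | cons i w2 =>
    have hip : i ≠ p := by
      rintro rfl
      have h1 := (List.nodup_append.1 hnd).2.1
      rw [List.nodup_cons] at h1
      exact h1.1 List.mem_cons_self
    rw [List.map_append, List.prod_append, List.map_cons, List.map_cons, List.prod_cons, List.prod_cons,
      Function.update_self, Function.update_of_ne hip, hx]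
    refine LN_left hUW _ (hmem' w1) _ ?_
    have h1 : b * a * (a * r i * (w2.map (Function.update x p (b * a))).prod)
        = b * (a * a) * r i * (w2.map (Function.update x p (b * a))).prod := by
      simp only [mul_assoc]
    rw [h1]
    refine LN_right hUW _ (hmem' w2) _ ?_
    exact (hUW _ (hr i) _ (hUW _ hb _ haa).1).2

end Pool.Agent.PX
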